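import Mathlib
import Pool.Agent.Helper579.SmParams
import Pool.Agent.Helper579.SmLower

set_option autoImplicit false

namespace Pool.Agent.Results.MP_7d5d9e_an.ExponentZero

open Pool.Agent.Helper579.Smooth

/-- **Main result.** For every `k` the optimal exponent `t_k` of the dimension in the upper bound
`e^ran(n, F_d^k) ≤ C d^t n^(-k/d - 1/2)` is zero: the infimum of all admissible `t` is `0`. -/
theorem result (k : ℕ) : IsGLB (exponents k) 0 := by
  constructor
  · intro t ht
    by_contra hcon
    push Not at hcon
    obtain ⟨C, hC⟩ := ht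
    obtain ⟨c, hc, hlow⟩ := eRan_one_ge k
    have h1 : ∀ d : ℕ, 1 ≤ d → c ≤ C * (d : ℝ) ^ t := by
      intro d hd
      have h2 := (hlow d hd).trans (hC d 1 hd le_rfl)
      rw [Nat.cast_one, Real.one_rpow, mul_one] at h2
      by_contra hlt
      push Not at hlt
      have h3 : ENNReal.ofReal (C * (d : ℝ) ^ t) < ENNReal.ofReal c :=
        (ENNReal.ofReal_lt_ofReal_iff hc).mpr hlt
      exact absurd h2 (not_le.mpr h3)
    have h4 : Filter.Tendsto (fun d : ℕ => C * (d : ℝ) ^ t) Filter.atTop (nhds (C * 0)) := by
      apply Filter.Tendsto.const_mul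
      have h5 := tendsto_rpow_neg_atTop (y := -t) (by linarith)
      simp only [neg_neg] at h5
      exact h5.comp tendsto_natCast_atTop_atTop
    rw [mul_zero] at h4
    have h6 : c ≤ 0 := by
      apply ge_of_tendsto h4
      filter_upwards [Filter.eventually_ge_atTop 1] with d hd using h1 d hd
    linarith
  · intro b hb
    by_contra hcon
    push Not at hcon
    have := hb (upper (k := k) (t := b / 2) (by linarith))
    linarith

end Pool.Agent.Results.MP_7d5d9e_an.ExponentZero
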